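import Mathlib
import Pool.Agent.X116.LrG

/-!
# MP_42c7e8_an, Q1: yes

A nonzero window `g ∈ L²(ℝ)` admitting a local reproducing formula on all discs is, up to a
nonzero constant and a time-frequency shift, a Hermite function.
-/

set_option autoImplicit false

namespace Pool.Agent.Results.MP_42c7e8_an.HermiteWindows

open MeasureTheory Pool.Agent.X116.Lr

/-- The functions `hermiteFun n` are in `L²(ℝ)` with norm one; and every nonzero `g ∈ L²(ℝ)`
which admits a local reproducing formula on all discs is of the form `c π(a) h_n`. -/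
theorem result :
    (∀ n : ℕ, MemLp (hermiteFun n) 2 volume ∧ ∫ t, ‖hermiteFun n t‖ ^ 2 = 1) ∧
    ∀ g : ℝ → ℂ, MemLp g 2 volume → ¬ g =ᵐ[volume] 0 → LocalRepro g →
      ∃ (n : ℕ) (c : ℂ) (a : ℝ × ℝ), c ≠ 0 ∧
        g =ᵐ[volume] fun t => c * tf a (hermiteFun n) t :=
  ⟨fun n => ⟨hermiteFun_memLp n, hermiteFun_norm n⟩, fun _ hg hne hL => main hg hne hL⟩

end Pool.Agent.Results.MP_42c7e8_an.HermiteWindows
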